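import Mathlib

/-!
# Polynomials with real roots in a residue class
-/

open Polynomial NumberField
open scoped Classical

namespace StarkRT

/-- `n` sign changes give `n` distinct roots -/
theorem roots_of_signs (q : ℝ[X]) (n : ℕ) (hn : q.natDegree = n) (hq : q ≠ 0) (t : ℕ → ℝ)
    (ht : ∀ j, t j < t (j + 1)) (hs : ∀ j < n, q.eval (t j) * q.eval (t (j + 1)) < 0) :
    q.roots.Nodup ∧ q.roots.card = n := by
  have h1 : ∀ j : Fin n, ∃ x, t j < x ∧ x < t (j + 1) ∧ q.eval x = 0 := by
    intro j
    have hj := hs j j.2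
    have hle : t j ≤ t (j + 1) := (ht j).le
    have hc : ContinuousOn (fun x => q.eval x) (Set.Icc (t j) (t (j + 1))) :=
      q.continuous.continuousOn
    rcases mul_neg_iff.mp hj with ⟨ha, hb⟩ | ⟨ha, hb⟩
    · obtain ⟨x, hx, hx0⟩ := intermediate_value_Ioo' hle hc (show (0 : ℝ) ∈ _ from ⟨hb, ha⟩)
      exact ⟨x, hx.1, hx.2, hx0⟩
    · obtain ⟨x, hx, hx0⟩ := intermediate_value_Ioo hle hc (show (0 : ℝ) ∈ _ from ⟨ha, hb⟩)
      exact ⟨x, hx.1, hx.2, hx0⟩
  choose x hx1 hx2 hx0 using h1
  have htm : StrictMono t := strictMono_nat_of_lt_succ ht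
  have hinj : Function.Injective x := by
    intro i j hij
    rcases lt_trichotomy (i : ℕ) j with h | h | h
    · have h3 : t (i + 1) ≤ t j := htm.monotone h
      have := hx2 i
      have := hx1 j
      rw [hij] at *
      linarith
    · exact Fin.ext h
    · have h3 : t (j + 1) ≤ t i := htm.monotone h
      have := hx2 j
      have := hx1 i
      rw [hij] at *
      linarith
  have h2 : n ≤ q.roots.toFinset.card := by
    have h3 := Finset.card_le_card_of_injOn (s := (Finset.univ : Finset (Fin n)))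
      (t := q.roots.toFinset) x (by
        intro j _
        simp only [Multiset.mem_toFinset, Finset.mem_coe]
        exact (Polynomial.mem_roots hq).mpr (hx0 j)) (hinj.injOn)
    simpa using h3
  have h4 : q.roots.toFinset.card ≤ q.roots.card := Multiset.toFinset_card_le _
  have h5 : q.roots.card ≤ n := hn ▸ Polynomial.card_roots' q
  exact ⟨Multiset.toFinset_card_eq_card_iff_nodup.mp (by omega), by omega⟩

theorem pos_of_abs_lt {a x : ℝ} (h : |x| < |a|) : 0 < (a + x) * a := by
  have h2 : |x * a| < a * a := by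
    rw [abs_mul]
    have h3 : a * a = |a| * |a| := (abs_mul_abs_self a).symm
    rw [h3]
    have h4 : 0 < |a| := lt_of_le_of_lt (abs_nonneg x) h
    exact mul_lt_mul_of_pos_right h h4
  have := abs_lt.mp h2
  nlinarith

/-- perturbation of `∏ (x - (i+1) Y)` -/
theorem real_roots_of_close (n : ℕ) (Y C : ℝ) (hC : 0 ≤ C) (hY1 : 1 ≤ Y)
    (hY : 2 ^ n * (C * n * (n + 1) ^ n) < Y) (q : ℝ[X]) (hqdeg : q.natDegree = n) (hq0 : q ≠ 0)
    (r : ℕ → ℝ) (hr : ∀ i, |r i| ≤ C)
    (hq : ∀ x, q.eval x = ∏ i ∈ Finset.range n, (x - Y * (i + 1)) +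
      ∑ i ∈ Finset.range n, r i * x ^ i) :
    q.roots.Nodup ∧ q.roots.card = n := by
  have hY0 : 0 < Y := by linarith
  set t : ℕ → ℝ := fun j => Y * (j + 1 / 2) with ht
  set a : ℕ → ℝ := fun j => ∏ i ∈ Finset.range n, (t j - Y * (i + 1)) with ha
  have hfac : ∀ j i : ℕ, Y / 2 ≤ |t j - Y * (i + 1)| := by
    intro j i
    have h1 : t j - Y * (i + 1) = Y * ((j : ℝ) - i - 1 / 2) := by
      simp only [ht]
      ring
    rw [h1, abs_mul, abs_of_pos hY0, div_eq_mul_inv]
    refine mul_le_mul_of_nonneg_left ?_ hY0.le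
    rcases lt_or_ge i j with h | h
    · have : (i : ℝ) + 1 ≤ j := by exact_mod_cast h
      rw [abs_of_nonneg (by linarith)]
      norm_num
      linarith
    · have : (j : ℝ) ≤ i := by exact_mod_cast h
      rw [abs_of_nonpos (by linarith)]
      norm_num
      linarith
  have hlow : ∀ j, (Y / 2) ^ n ≤ |a j| := by
    intro j
    rw [ha]
    simp only
    rw [Finset.abs_prod]
    calc (Y / 2) ^ n = ∏ i ∈ Finset.range n, (Y / 2) := by rw [Finset.prod_const, Finset.card_range]
      _ ≤ _ := Finset.prod_le_prod (fun i _ => by positivity) (fun i _ => hfac j i)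
  have hup : ∀ j ≤ n, |∑ i ∈ Finset.range n, r i * t j ^ i| < (Y / 2) ^ n := by
    intro j hj
    rcases Nat.eq_zero_or_pos n with hn | hn
    · subst hn
      simp
    have htj0 : 0 ≤ t j := by simp only [ht]; positivity
    have htj : t j ≤ Y * (n + 1) := by
      simp only [ht]
      have : (j : ℝ) ≤ n := by exact_mod_cast hj
      nlinarith
    have h1 : 1 ≤ Y * ((n : ℝ) + 1) := by
      have : (0 : ℝ) ≤ n := Nat.cast_nonneg n
      nlinarith
    calc |∑ i ∈ Finset.range n, r i * t j ^ i| ≤ ∑ i ∈ Finset.range n, |r i * t j ^ i| :=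
          Finset.abs_sum_le_sum_abs _ _
      _ ≤ ∑ i ∈ Finset.range n, C * (Y * (n + 1)) ^ (n - 1) := by
          refine Finset.sum_le_sum fun i hi => ?_
          rw [abs_mul, abs_pow, abs_of_nonneg htj0]
          refine mul_le_mul (hr i) ?_ (by positivity) hC
          calc t j ^ i ≤ (Y * (n + 1)) ^ i := pow_le_pow_left₀ htj0 htj i
            _ ≤ (Y * (n + 1)) ^ (n - 1) := pow_le_pow_right₀ h1 (by
                rw [Finset.mem_range] at hi; omega)
      _ = n * (C * (Y * (n + 1)) ^ (n - 1)) := by rw [Finset.sum_const, Finset.card_range]; simp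
      _ = Y ^ (n - 1) * (C * n * (n + 1) ^ (n - 1)) := by rw [mul_pow]; ring
      _ ≤ Y ^ (n - 1) * (C * n * (n + 1) ^ n) := by
          refine mul_le_mul_of_nonneg_left ?_ (by positivity)
          refine mul_le_mul_of_nonneg_left ?_ (by positivity)
          exact pow_le_pow_right₀ (by linarith [(Nat.cast_nonneg n : (0 : ℝ) ≤ n)]) (by omega)
      _ < Y ^ (n - 1) * (Y / 2 ^ n) := by
          refine mul_lt_mul_of_pos_left ?_ (by positivity)
          rw [lt_div_iff₀ (by positivity)]
          linarith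
      _ = (Y / 2) ^ n := by
          rw [div_pow, ← mul_div_assoc, ← pow_succ, Nat.sub_add_cancel hn]
  refine roots_of_signs q n hqdeg hq0 t (fun j => ?_) (fun j hj => ?_)
  · simp only [ht]
    push_cast
    nlinarith
  · have e1 : q.eval (t j) = a j + ∑ i ∈ Finset.range n, r i * t j ^ i := hq _
    have e2 : q.eval (t (j + 1)) = a (j + 1) + ∑ i ∈ Finset.range n, r i * t (j + 1) ^ i := hq _
    have p1 := pos_of_abs_lt ((hup j hj.le).trans_le (hlow j))
    have p2 := pos_of_abs_lt ((hup (j + 1) hj).trans_le (hlow (j + 1)))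
    rw [← e1] at p1
    rw [← e2] at p2
    have p3 : a j * a (j + 1) < 0 := by
      simp only [ha]
      rw [← Finset.prod_mul_distrib]
      rw [← Finset.mul_prod_erase _ _ (Finset.mem_range.mpr hj)]
      refine mul_neg_of_neg_of_pos ?_ ?_
      · simp only [ht]
        push_cast
        nlinarith [mul_pos hY0 hY0]
      · refine Finset.prod_pos fun i hi => ?_
        rw [Finset.mem_erase] at hi
        have h1 : (t j - Y * (i + 1)) * (t (j + 1) - Y * (i + 1)) =
            Y * Y * (((j : ℝ) - i - 1 / 2) * ((j : ℝ) - i + 1 / 2)) := by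
          simp only [ht]
          push_cast
          ring
        rw [h1]
        refine mul_pos (mul_pos hY0 hY0) ?_
        rcases lt_or_gt_of_ne hi.1 with h | h
        · have : (i : ℝ) + 1 ≤ j := by exact_mod_cast h
          exact mul_pos (by linarith) (by linarith)
        · have : (j : ℝ) + 1 ≤ i := by exact_mod_cast h
          exact mul_pos_of_neg_of_neg (by linarith) (by linarith)
    by_contra hcon
    push Not at hcon
    nlinarith [mul_pos p1 p2, mul_nonneg hcon (neg_nonneg.mpr p3.le)]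

variable {F : Type} [Field F] [NumberField F]

/-- bounded representatives -/
theorem exists_bounded_rep (I : Ideal (𝓞 F)) (hI : I ≠ ⊥) :
    ∃ (rep : 𝓞 F → 𝓞 F) (C : ℝ), 0 ≤ C ∧ (∀ x, rep x - x ∈ I) ∧
      ∀ (x : 𝓞 F) (φ : F →+* ℝ), |φ (rep x)| ≤ C := by
  have hfin : Finite (𝓞 F ⧸ I) := Ideal.finiteQuotientOfFreeOfNeBot I hI
  have hfin2 : Finite (F →+* ℝ) := by
    refine Finite.of_injective (fun φ : F →+* ℝ => Complex.ofRealHom.comp φ) ?_
    intro φ ψ h
    ext x
    have := RingHom.congr_fun h x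
    exact Complex.ofReal_injective this
  obtain ⟨C, hC⟩ := (Set.finite_range
    (fun p : (𝓞 F ⧸ I) × (F →+* ℝ) => |p.2 (p.1.out : 𝓞 F)|)).bddAbove
  refine ⟨fun x => (Ideal.Quotient.mk I x).out, max C 0, le_max_right _ _, fun x => ?_,
    fun x φ => ?_⟩
  · rw [← Ideal.Quotient.eq]
    exact Ideal.Quotient.mk_out _
  · refine le_trans ?_ (le_max_left _ _)
    exact hC ⟨(Ideal.Quotient.mk I x, φ), rfl⟩

/-- **Polynomials with real roots in a residue class.** -/
theorem exists_real_poly (I : Ideal (𝓞 F)) (hI : I ≠ ⊥) (R₀ : (𝓞 F)[X]) (hR₀ : R₀.Monic) :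
    ∃ R : (𝓞 F)[X], R.Monic ∧ R.natDegree = R₀.natDegree ∧ (∀ i, (R - R₀).coeff i ∈ I) ∧
      ∀ φ : F →+* ℝ, (R.map (φ.comp (algebraMap (𝓞 F) F))).roots.Nodup ∧
        (R.map (φ.comp (algebraMap (𝓞 F) F))).roots.card = R₀.natDegree := by
  obtain ⟨rep, C₀, hC₀, hrep, hbd⟩ := exists_bounded_rep I hI
  set n := R₀.natDegree with hn
  obtain ⟨Y, hY⟩ := exists_nat_gt (max 1 (2 ^ n * (C₀ * n * ((n : ℝ) + 1) ^ n)))
  have hY1 : (1 : ℝ) ≤ Y := (le_max_left _ _).trans hY.le
  have hY2 : 2 ^ n * (C₀ * n * ((n : ℝ) + 1) ^ n) < Y := (le_max_right _ _).trans_lt hY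
  set P : (𝓞 F)[X] := ∏ i ∈ Finset.range n, (X - C ((Y : 𝓞 F) * (i + 1))) with hP
  have hPm : P.Monic := monic_prod_of_monic _ _ fun i _ => monic_X_sub_C _
  have hPd : P.natDegree = n := by
    rw [hP, natDegree_prod_of_monic _ _ fun i _ => monic_X_sub_C _,
      Finset.sum_congr rfl fun i _ => natDegree_X_sub_C _]
    simp
  set S : (𝓞 F)[X] := ∑ i ∈ Finset.range n, C (rep ((R₀ - P).coeff i)) * X ^ i with hS
  have hSc : ∀ i, S.coeff i = if i < n then rep ((R₀ - P).coeff i) else 0 := by
    intro i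
    rw [hS, finsetSum_coeff]
    simp only [coeff_C_mul_X_pow]
    rw [Finset.sum_ite_eq]
    simp
  have hSd : S.degree < n := by
    rw [Polynomial.degree_lt_iff_coeff_zero]
    intro m hm
    rw [hSc, if_neg (by omega)]
  have hPdeg : P.degree = n := by rw [degree_eq_natDegree hPm.ne_zero, hPd]
  have hRm : (P + S).Monic := hPm.add_of_left (by rw [hPdeg]; exact hSd)
  have hRd : (P + S).natDegree = n := by
    rw [natDegree_add_eq_left_of_degree_lt (by rw [hPdeg]; exact hSd), hPd]
  refine ⟨P + S, hRm, hRd, fun i => ?_, fun φ => ?_⟩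
  · rcases lt_trichotomy i n with h | h | h
    · have h1 : (P + S - R₀).coeff i = rep ((R₀ - P).coeff i) - (R₀ - P).coeff i := by
        rw [coeff_sub, coeff_add, hSc, if_pos h, coeff_sub]
        ring
      rw [h1]
      exact hrep _
    · have h1 : (P + S - R₀).coeff i = 0 := by
        rw [coeff_sub, h]
        have h2 : (P + S).coeff n = 1 := by
          have := hRm.coeff_natDegree
          rwa [hRd] at this
        have h3 : R₀.coeff n = 1 := hR₀.coeff_natDegree
        rw [h2, h3, sub_self]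
      rw [h1]
      exact I.zero_mem
    · have h1 : (P + S - R₀).coeff i = 0 := by
        rw [coeff_sub, coeff_eq_zero_of_natDegree_lt (by rw [hRd]; exact h),
          coeff_eq_zero_of_natDegree_lt (by rw [← hn]; exact h), sub_self]
      rw [h1]
      exact I.zero_mem
  · set ψ := φ.comp (algebraMap (𝓞 F) F) with hψ
    refine real_roots_of_close n Y C₀ hC₀ hY1 hY2 _ ?_ (hRm.map _).ne_zero
      (fun i => ψ (rep ((R₀ - P).coeff i))) (fun i => hbd _ φ) ?_
    · rw [hRm.natDegree_map, hRd]
    · intro x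
      have e1 : (P.map ψ).eval x = ∏ i ∈ Finset.range n, (x - Y * (i + 1)) := by
        rw [hP, Polynomial.map_prod, eval_prod]
        refine Finset.prod_congr rfl fun i _ => ?_
        simp
      have e2 : (S.map ψ).eval x = ∑ i ∈ Finset.range n, ψ (rep ((R₀ - P).coeff i)) * x ^ i := by
        rw [hS, Polynomial.map_sum, eval_finsetSum]
        refine Finset.sum_congr rfl fun i _ => ?_
        rw [Polynomial.map_mul, Polynomial.map_pow, map_C, map_X, eval_mul, eval_C, eval_pow,
          eval_X]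
      rw [Polynomial.map_add, eval_add, e1, e2]

end StarkRT
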