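import Pool.Agent.Lib_helper3.RT.RealPoly

/-!
# Polynomials with prescribed residues and real roots
-/

open Polynomial NumberField IsDedekindDomain
open scoped Classical

namespace StarkRT

variable {F : Type} [Field F] [NumberField F]

/-- finitely many primes of `F` lie above a finite set of prime numbers -/
theorem finite_above (T : Finset ℕ) :
    {w : HeightOneSpectrum (𝓞 F) | ∃ p ∈ T, p.Prime ∧ (p : 𝓞 F) ∈ w.asIdeal}.Finite := by
  have h1 : ∀ p : ℕ, p.Prime → {w : HeightOneSpectrum (𝓞 F) | (p : 𝓞 F) ∈ w.asIdeal}.Finite := by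
    intro p hp
    have h2 : (Ideal.span {(p : 𝓞 F)} : Ideal (𝓞 F)) ≠ 0 := by
      intro h
      have h3 := Ideal.span_singleton_eq_bot.mp h
      exact hp.ne_zero (by exact_mod_cast h3)
    refine (Ideal.finite_factors h2).subset ?_
    intro w hw
    exact (Ideal.dvd_span_singleton.mpr hw)
  refine ((T.finite_toSet.subset (Set.sep_subset _ (fun p => p.Prime))).biUnion
    (t := fun p => {w : HeightOneSpectrum (𝓞 F) | (p : 𝓞 F) ∈ w.asIdeal})
    (fun p hp => h1 p hp.2)).subset ?_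
  rintro w ⟨p, hp, hpp, hw⟩
  exact Set.mem_biUnion (show p ∈ {p | p ∈ (T : Set ℕ) ∧ p.Prime} from ⟨hp, hpp⟩) hw

/-- Chinese remainder theorem for monic polynomials -/
theorem exists_poly_crt (V : Finset (HeightOneSpectrum (𝓞 F)))
    (a : HeightOneSpectrum (𝓞 F) → ℕ) (f : HeightOneSpectrum (𝓞 F) → (𝓞 F)[X]) (n : ℕ)
    (hf : ∀ v, (f v).Monic) (hn : ∀ v, (f v).natDegree = n) :
    ∃ R : (𝓞 F)[X], R.Monic ∧ R.natDegree = n ∧
      ∀ v ∈ V, ∀ i, (R - f v).coeff i ∈ v.asIdeal ^ a v := by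
  have h1 : ∀ i : ℕ, ∃ y : 𝓞 F, ∀ v ∈ V, y - (f v).coeff i ∈ v.asIdeal ^ a v := by
    intro i
    obtain ⟨y, hy⟩ := IsDedekindDomain.exists_forall_sub_mem_ideal (s := V)
      (fun v : HeightOneSpectrum (𝓞 F) => v.asIdeal) a (fun v _ => v.prime)
      (fun v _ w _ hvw h => hvw (HeightOneSpectrum.ext h)) (fun v => (f v.1).coeff i)
    exact ⟨y, fun v hv => hy v hv⟩
  choose y hy using h1
  set S : (𝓞 F)[X] := ∑ i ∈ Finset.range n, C (y i) * X ^ i with hS
  have hSc : ∀ i, S.coeff i = if i < n then y i else 0 := by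
    intro i
    rw [hS, finsetSum_coeff]
    simp only [coeff_C_mul_X_pow]
    rw [Finset.sum_ite_eq]
    simp
  have hSd : S.degree < n := by
    rw [Polynomial.degree_lt_iff_coeff_zero]
    intro m hm
    rw [hSc, if_neg (by omega)]
  have hRm : (X ^ n + S).Monic := monic_X_pow_add hSd
  have hRd : (X ^ n + S : (𝓞 F)[X]).natDegree = n := by
    rw [natDegree_add_eq_left_of_degree_lt (by rw [degree_X_pow]; exact hSd), natDegree_X_pow]
  refine ⟨X ^ n + S, hRm, hRd, fun v hv i => ?_⟩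
  rcases lt_trichotomy i n with h | h | h
  · rw [coeff_sub, coeff_add, hSc, if_pos h, coeff_X_pow, if_neg (by omega), zero_add]
    exact hy i v hv
  · have h2 : (X ^ n + S - f v).coeff i = 0 := by
      have h3 := hRm.coeff_natDegree
      rw [hRd] at h3
      have h4 := (hf v).coeff_natDegree
      rw [hn] at h4
      rw [coeff_sub, h, h3, h4, sub_self]
    rw [h2]
    exact Ideal.zero_mem _
  · have h2 : (X ^ n + S - f v).coeff i = 0 := by
      rw [coeff_sub, coeff_eq_zero_of_natDegree_lt (by rw [hRd]; exact h),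
        coeff_eq_zero_of_natDegree_lt (by rw [hn]; exact h), sub_self]
    rw [h2]
    exact Ideal.zero_mem _

/-- **Polynomials with prescribed residues and real roots.** -/
theorem exists_real_poly_crt (V : Finset (HeightOneSpectrum (𝓞 F)))
    (a : HeightOneSpectrum (𝓞 F) → ℕ) (f : HeightOneSpectrum (𝓞 F) → (𝓞 F)[X]) (n : ℕ)
    (hf : ∀ v, (f v).Monic) (hn : ∀ v, (f v).natDegree = n) :
    ∃ R : (𝓞 F)[X], R.Monic ∧ R.natDegree = n ∧
      (∀ v ∈ V, ∀ i, (R - f v).coeff i ∈ v.asIdeal ^ a v) ∧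
      ∀ φ : F →+* ℝ, (R.map (φ.comp (algebraMap (𝓞 F) F))).roots.Nodup ∧
        (R.map (φ.comp (algebraMap (𝓞 F) F))).roots.card = n := by
  obtain ⟨R₁, hm, hd, hc⟩ := exists_poly_crt V a f n hf hn
  set I : Ideal (𝓞 F) := ∏ v ∈ V, v.asIdeal ^ a v with hI
  have hI0 : I ≠ ⊥ := by
    rw [hI]
    exact Finset.prod_ne_zero_iff.mpr fun v _ => pow_ne_zero _ v.ne_bot
  obtain ⟨R, hRm, hRd, hRc, hR⟩ := exists_real_poly I hI0 R₁ hm
  refine ⟨R, hRm, hRd.trans hd, fun v hv i => ?_, fun φ => ⟨(hR φ).1, (hR φ).2.trans hd⟩⟩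
  have h1 : (R - f v).coeff i = (R - R₁).coeff i + (R₁ - f v).coeff i := by
    simp only [coeff_sub]
    ring
  rw [h1]
  refine Ideal.add_mem _ ?_ (hc v hv i)
  have h2 : I ≤ v.asIdeal ^ a v := by
    rw [hI]
    exact Ideal.le_of_dvd (Finset.dvd_prod_of_mem _ hv)
  exact h2 (hRc i)

end StarkRT
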