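import Pool.Agent.Lib_helper3.RT.Transfer
import Pool.Agent.Stark.RBasic

/-!
# Transfer of roots in number fields, uniformly in the big field
-/

open Polynomial NumberField IsDedekindDomain
open scoped Classical

namespace StarkRT

open StarkC

variable {F : Type} [Field F] [NumberField F]

/-- Bezout for a separable polynomial -/
theorem exists_bezout (f : (𝓞 F)[X]) (hsep : (f.map (algebraMap (𝓞 F) F)).Separable) :
    ∃ c : 𝓞 F, c ≠ 0 ∧ ∃ A B : (𝓞 F)[X], A * f + B * derivative f = C c := by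
  obtain ⟨A, B, hAB⟩ := hsep
  obtain ⟨a, ha0, hA⟩ := IsLocalization.integerNormalization_spec (nonZeroDivisors (𝓞 F)) A
  obtain ⟨b, hb0, hB⟩ := IsLocalization.integerNormalization_spec (nonZeroDivisors (𝓞 F)) B
  set A' := IsLocalization.integerNormalization (nonZeroDivisors (𝓞 F)) A
  set B' := IsLocalization.integerNormalization (nonZeroDivisors (𝓞 F)) B
  refine ⟨a * b, mul_ne_zero (nonZeroDivisors.ne_zero ha0) (nonZeroDivisors.ne_zero hb0),
    C b * A', C a * B', ?_⟩
  apply Polynomial.map_injective (algebraMap (𝓞 F) F) (FaithfulSMul.algebraMap_injective _ _)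
  have hA2 : A'.map (algebraMap (𝓞 F) F) = C (algebraMap (𝓞 F) F a) * A := by
    rw [hA]
    ext i
    simp [Algebra.smul_def]
  have hB2 : B'.map (algebraMap (𝓞 F) F) = C (algebraMap (𝓞 F) F b) * B := by
    rw [hB]
    ext i
    simp [Algebra.smul_def]
  rw [Polynomial.map_add, Polynomial.map_mul, Polynomial.map_mul, Polynomial.map_mul,
    Polynomial.map_mul, hA2, hB2, Polynomial.map_C, Polynomial.map_C, Polynomial.map_C,
    ← Polynomial.derivative_map, map_mul, C_mul]
  linear_combination (C (algebraMap (𝓞 F) F a) * C (algebraMap (𝓞 F) F b)) * hAB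

/-- differences of roots divide the constant -/
theorem sub_dvd {R : Type*} [CommRing R] [IsDomain R] (f A B : R[X]) (c : R)
    (h : A * f + B * derivative f = C c) {α β : R} (hα : f.eval α = 0) (hβ : f.eval β = 0)
    (hne : α ≠ β) : α - β ∣ c := by
  obtain ⟨q, hq⟩ := Polynomial.dvd_iff_isRoot.mpr hα
  have h1 : (derivative f).eval α = q.eval α := by
    rw [hq, derivative_mul]
    simp
  have h2 : q.eval β = 0 := by
    rw [hq, eval_mul] at hβ
    have h3 : (X - C α).eval β ≠ 0 := by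
      rw [eval_sub, eval_X, eval_C]
      exact sub_ne_zero.mpr hne.symm
    exact (mul_eq_zero.mp hβ).resolve_left h3
  have h4 : c = B.eval α * q.eval α := by
    have := congrArg (Polynomial.eval α) h
    rw [eval_add, eval_mul, eval_mul, hα, h1, eval_C] at this
    rw [← this]
    ring
  rw [h4]
  refine Dvd.dvd.mul_left ?_ _
  have h5 := Polynomial.sub_dvd_eval_sub α β q
  rwa [h2, sub_zero] at h5

/-- small elements -/
theorem exists_pow_lt (w : HeightOneSpectrum (𝓞 F)) (c : 𝓞 F) (hc : c ≠ 0) (n : ℕ) :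
    ∃ a₀ : ℕ, ∀ a, a₀ ≤ a → ∀ x ∈ w.asIdeal ^ a,
      w.valuation F (algebraMap (𝓞 F) F x) < w.valuation F (algebraMap (𝓞 F) F c) ^ n := by
  have h0 : w.intValuation c ^ n ≠ 0 := pow_ne_zero _ (w.intValuation_ne_zero c hc)
  obtain ⟨m, hm⟩ : ∃ m : ℤ, w.intValuation c ^ n = WithZero.exp m :=
    ⟨WithZero.log (w.intValuation c ^ n), (WithZero.exp_log h0).symm⟩
  refine ⟨(-m).toNat + 1, fun a ha x hx => ?_⟩
  rw [HeightOneSpectrum.valuation_of_algebraMap, HeightOneSpectrum.valuation_of_algebraMap, hm]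
  refine lt_of_le_of_lt ((w.intValuation_le_pow_iff_mem x a).mpr hx) ?_
  rw [WithZero.exp_lt_exp]
  omega

theorem exists_lift {N : Type} [Field N] [NumberField N] [Algebra F N] (f : (𝓞 F)[X])
    (hf : f.Monic) {α : N} (hα : α ∈ (f.map (algebraMap (𝓞 F) N)).roots) :
    ∃ α' : 𝓞 N, (α' : N) = α ∧ (f.map (algebraMap (𝓞 F) (𝓞 N))).eval α' = 0 := by
  have h1 : (f.map (algebraMap (𝓞 F) N)).eval α = 0 :=
    (Polynomial.mem_roots (hf.map _).ne_zero).mp hα
  have hint : IsIntegral (𝓞 F) α := ⟨f, hf, by rw [← Polynomial.eval_map]; exact h1⟩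
  have hint2 : IsIntegral ℤ α := isIntegral_trans α hint
  obtain ⟨α', rfl⟩ : ∃ α' : 𝓞 N, (α' : N) = α := ⟨⟨α, hint2⟩, rfl⟩
  refine ⟨α', rfl, ?_⟩
  apply RingOfIntegers.ext
  have h2 : (algebraMap (𝓞 N) N).comp (algebraMap (𝓞 F) (𝓞 N)) = algebraMap (𝓞 F) N := by
    rw [← IsScalarTower.algebraMap_eq]
  have h3 := Polynomial.eval_map_apply (f := algebraMap (𝓞 N) N)
    (p := f.map (algebraMap (𝓞 F) (𝓞 N))) α'
  rw [Polynomial.map_map, h2] at h3
  exact h3.symm.trans h1

/-- **Transfer of roots** for a monic separable `f` over `𝓞 F` and a prime `w` of `F`: it holds for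
all monic `k` of the same degree which are congruent to `f` modulo `w^a`, in all extensions. -/
theorem transfer_uniform (f : (𝓞 F)[X]) (hf : f.Monic)
    (hsep : (f.map (algebraMap (𝓞 F) F)).Separable) (w : HeightOneSpectrum (𝓞 F)) :
    ∃ a₀ : ℕ, ∀ a, a₀ ≤ a → ∀ k : (𝓞 F)[X], k.Monic → k.natDegree = f.natDegree →
      (∀ i, (k - f).coeff i ∈ w.asIdeal ^ a) →
      ∀ (N : Type) [Field N] [NumberField N] [Algebra F N],
        (f.map (algebraMap (𝓞 F) N)).Splits → (k.map (algebraMap (𝓞 F) N)).Splits →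
        ∀ W : HeightOneSpectrum (𝓞 N), W.under (𝓞 F) = w →
          (k.map (algebraMap (𝓞 F) N)).roots.Nodup ∧
          ∃ e : {x // x ∈ (f.map (algebraMap (𝓞 F) N)).roots} ≃
              {x // x ∈ (k.map (algebraMap (𝓞 F) N)).roots},
            ∀ g : N ≃ₐ[F] N, Dec W g →
              ∀ (α : {x // x ∈ (f.map (algebraMap (𝓞 F) N)).roots})
                (h : g α ∈ (f.map (algebraMap (𝓞 F) N)).roots), (e ⟨g α, h⟩ : N) = g (e α) := by
  obtain ⟨c, hc, A, B, hAB⟩ := exists_bezout f hsep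
  obtain ⟨a₀, ha₀⟩ := exists_pow_lt w c hc f.natDegree
  refine ⟨a₀, fun a ha k hk hdeg hcong N _ _ _ hfs hks W hW => ?_⟩
  have hFN : Function.Injective (algebraMap (𝓞 F) N) := FaithfulSMul.algebraMap_injective _ _
  have hval : ∀ y : 𝓞 F, algebraMap (𝓞 F) N y = algebraMap F N (algebraMap (𝓞 F) F y) := fun y =>
    IsScalarTower.algebraMap_apply (𝓞 F) F N y
  obtain ⟨e₁, he₁, hlies⟩ := RB.val_liesOver (L := F) W
  rw [hW] at hlies
  have hδ : 0 < W.valuation N (algebraMap (𝓞 F) N c) := by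
    rw [zero_lt_iff, Valuation.ne_zero_iff]
    exact (map_ne_zero_iff _ hFN).mpr hc
  have hdeg' : (k.map (algebraMap (𝓞 F) N)).natDegree = (f.map (algebraMap (𝓞 F) N)).natDegree := by
    rw [hk.natDegree_map, hf.natDegree_map, hdeg]
  have hnd : (f.map (algebraMap (𝓞 F) N)).roots.Nodup := by
    have h2 := hsep.map (f := algebraMap F N)
    rw [Polynomial.map_map, ← IsScalarTower.algebraMap_eq] at h2
    exact Polynomial.nodup_roots h2
  have hint : ∀ α ∈ (f.map (algebraMap (𝓞 F) N)).roots, W.valuation N α ≤ 1 := by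
    intro α hα
    obtain ⟨α', rfl, -⟩ := exists_lift f hf hα
    exact W.valuation_le_one α'
  have hsp : ∀ α ∈ (f.map (algebraMap (𝓞 F) N)).roots,
      ∀ β ∈ (f.map (algebraMap (𝓞 F) N)).roots, α ≠ β →
        W.valuation N (algebraMap (𝓞 F) N c) ≤ W.valuation N (α - β) := by
    intro α hα β hβ hne
    obtain ⟨α', rfl, hα'⟩ := exists_lift f hf hα
    obtain ⟨β', rfl, hβ'⟩ := exists_lift f hf hβ
    have hne' : α' ≠ β' := fun h => hne (by rw [h])
    have h3 := congrArg (Polynomial.map (algebraMap (𝓞 F) (𝓞 N))) hAB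
    rw [Polynomial.map_add, Polynomial.map_mul, Polynomial.map_mul, ← Polynomial.derivative_map,
      Polynomial.map_C] at h3
    obtain ⟨t, ht⟩ := sub_dvd _ _ _ _ h3 hα' hβ' hne'
    have h4 : algebraMap (𝓞 F) N c = ((α' : N) - β') * (t : N) := by
      have h5 := congrArg (algebraMap (𝓞 N) N) ht
      rw [← IsScalarTower.algebraMap_apply, map_mul, map_sub] at h5
      exact h5
    rw [h4, map_mul]
    exact mul_le_of_le_one_right' (W.valuation_le_one t)
  have hd : ∀ i, W.valuation N ((k.map (algebraMap (𝓞 F) N) - f.map (algebraMap (𝓞 F) N)).coeff i)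
      < W.valuation N (algebraMap (𝓞 F) N c) ^ (k.map (algebraMap (𝓞 F) N)).natDegree := by
    intro i
    rw [← Polynomial.map_sub, Polynomial.coeff_map, hval, hval, hlies, hlies, hk.natDegree_map,
      hdeg, ← pow_mul, mul_comm, pow_mul]
    exact pow_lt_pow_left₀ (ha₀ a ha _ (hcong i)) zero_le he₁.ne'
  obtain ⟨h1, e, he⟩ := transfer_equiv (W.valuation N) hδ (hf.map _) (hk.map _) hdeg' hfs hks hnd
    hint hsp hd
  refine ⟨h1, e, fun g hg α h => ?_⟩
  have hmap : ∀ p : (𝓞 F)[X], (p.map (algebraMap (𝓞 F) N)).map ((g : N ≃+* N) : N →+* N) =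
      p.map (algebraMap (𝓞 F) N) := by
    intro p
    rw [Polynomial.map_map]
    congr 1
    ext y
    show g (algebraMap (𝓞 F) N y) = algebraMap (𝓞 F) N y
    rw [hval, AlgEquiv.commutes]
  exact he (g : N ≃+* N) (fun x => RB.val_dec hg x) (hmap f) (hmap k) α h

end StarkRT
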