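import Mathlib

/-!
# Roots of polynomials which are close for a valuation
-/

open Polynomial

namespace StarkRT

section Val

variable {N : Type*} [Field N] {Γ₀ : Type*} [LinearOrderedCommGroupWithZero Γ₀]
  (v : Valuation N Γ₀)

/-- if a product of `n` elements is `< δ^n` then some factor is `< δ` -/
theorem exists_lt_of_prod_lt (s : Multiset Γ₀) (δ : Γ₀) (h : s.prod < δ ^ s.card) :
    ∃ x ∈ s, x < δ := by
  by_contra hcon
  push Not at hcon
  exact absurd h (not_lt.mpr (Multiset.pow_card_le_prod hcon))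

theorem val_eval_lt {d : N[X]} {ε : Γ₀} (hε : 0 < ε) (hd : ∀ i, v (d.coeff i) < ε) {α : N}
    (hα : v α ≤ 1) : v (d.eval α) < ε := by
  rw [Polynomial.eval_eq_sum_range]
  refine Valuation.map_sum_lt v hε.ne' fun i _ => ?_
  rw [map_mul, map_pow]
  calc v (d.coeff i) * v α ^ i ≤ v (d.coeff i) * 1 := by gcongr; exact pow_le_one' hα i
    _ < ε := by rw [mul_one]; exact hd i

/-- every root of `f` is close to a root of `k` -/
theorem exists_close {f k : N[X]} {δ : Γ₀} (hδ : 0 < δ) (hk : k.Monic)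
    (hks : k.Splits) (hd : ∀ i, v ((k - f).coeff i) < δ ^ k.natDegree) {α : N} (hα : v α ≤ 1)
    (hfα : f.eval α = 0) : ∃ κ ∈ k.roots, v (α - κ) < δ := by
  have h1 : k.eval α = (k.roots.map (fun κ => α - κ)).prod := by
    conv_lhs => rw [hks.eq_prod_roots_of_monic hk]
    rw [Polynomial.eval_multiset_prod, Multiset.map_map]
    simp
  have h2 : v (k.eval α) < δ ^ k.natDegree := by
    have h3 := val_eval_lt v (pow_pos hδ _) hd hα
    rwa [Polynomial.eval_sub, hfα, sub_zero] at h3
  rw [h1, map_multiset_prod, Multiset.map_map] at h2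
  have h4 : k.natDegree = ((k.roots.map (⇑v ∘ fun κ => α - κ))).card := by
    rw [Multiset.card_map, hks.natDegree_eq_card_roots]
  rw [h4] at h2
  obtain ⟨x, hx, hxδ⟩ := exists_lt_of_prod_lt _ _ h2
  obtain ⟨κ, hκ, rfl⟩ := Multiset.mem_map.mp hx
  exact ⟨κ, hκ, hxδ⟩

/-- **Transfer of roots**: two close polynomials, one of them with separated roots. -/
theorem transfer {f k : N[X]} {δ : Γ₀} (hδ : 0 < δ) (hf : f.Monic) (hk : k.Monic)
    (hdeg : k.natDegree = f.natDegree) (hfs : f.Splits) (hks : k.Splits)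
    (hnd : f.roots.Nodup) (hint : ∀ α ∈ f.roots, v α ≤ 1)
    (hsep : ∀ α ∈ f.roots, ∀ β ∈ f.roots, α ≠ β → δ ≤ v (α - β))
    (hd : ∀ i, v ((k - f).coeff i) < δ ^ k.natDegree) :
    k.roots.Nodup ∧ ∃ e : {x // x ∈ f.roots} ≃ {x // x ∈ k.roots},
      ∀ α : {x // x ∈ f.roots}, v ((α : N) - e α) < δ := by
  classical
  have h1 : ∀ α : {x // x ∈ f.roots}, ∃ κ : {x // x ∈ k.roots}, v ((α : N) - κ) < δ := by
    intro α
    obtain ⟨κ, hκ, h⟩ := exists_close v hδ hk hks hd (hint _ α.2)
      ((Polynomial.mem_roots hf.ne_zero).mp α.2)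
    exact ⟨⟨κ, hκ⟩, h⟩
  choose e he using h1
  have hinj : Function.Injective e := by
    intro α β hαβ
    by_contra hne
    have h2 : (α : N) ≠ β := fun h => hne (Subtype.ext h)
    have h3 := hsep _ α.2 _ β.2 h2
    have h4 : v ((α : N) - β) < δ := by
      have h5 : (α : N) - β = (α - e α) - (β - e β) := by rw [hαβ]; ring
      rw [h5]
      exact Valuation.map_sub_lt v (he α) (he β)
    exact absurd h4 (not_lt.mpr h3)
  have c1 : Fintype.card {x // x ∈ f.roots} = f.natDegree := by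
    have : Fintype.card {x // x ∈ f.roots} = f.roots.toFinset.card := by
      rw [← Fintype.card_coe]
      exact Fintype.card_congr (Equiv.subtypeEquivRight (by simp))
    rw [this, Multiset.toFinset_card_of_nodup hnd, hfs.natDegree_eq_card_roots]
  have c2 : Fintype.card {x // x ∈ k.roots} = k.roots.toFinset.card := by
    rw [← Fintype.card_coe]
    exact Fintype.card_congr (Equiv.subtypeEquivRight (by simp))
  have c3 : k.roots.toFinset.card ≤ k.natDegree := by
    rw [hks.natDegree_eq_card_roots]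
    exact Multiset.toFinset_card_le _
  have c4 := Fintype.card_le_of_injective e hinj
  have c5 : k.roots.toFinset.card = k.roots.card := by
    rw [← hks.natDegree_eq_card_roots]
    omega
  refine ⟨Multiset.toFinset_card_eq_card_iff_nodup.mp c5, Equiv.ofBijective e
    ((Fintype.bijective_iff_injective_and_card e).mpr ⟨hinj, by omega⟩), ?_⟩
  intro α
  exact he α

/-- uniqueness of the close root -/
theorem close_unique {f k : N[X]} {δ : Γ₀}
    (hsep : ∀ α ∈ f.roots, ∀ β ∈ f.roots, α ≠ β → δ ≤ v (α - β))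
    (e : {x // x ∈ f.roots} ≃ {x // x ∈ k.roots}) (he : ∀ α : {x // x ∈ f.roots}, v ((α : N) - e α) < δ)
    (α : {x // x ∈ f.roots}) (κ : {x // x ∈ k.roots}) (h : v ((α : N) - κ) < δ) : κ = e α := by
  obtain ⟨β, rfl⟩ := e.surjective κ
  have : β = α := by
    by_contra hne
    have h2 : (β : N) ≠ α := fun h => hne (Subtype.ext h)
    have h3 := hsep _ β.2 _ α.2 h2
    have h5 : (β : N) - α = (β - e β) - (α - e β) := by ring
    rw [h5] at h3
    exact absurd (Valuation.map_sub_lt v (he β) h) (not_lt.mpr h3)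
  rw [this]

theorem map_mem_roots {f : N[X]} (hf : f ≠ 0) (g : N ≃+* N) (hg : f.map (g : N →+* N) = f) {α : N}
    (hα : α ∈ f.roots) : g α ∈ f.roots := by
  rw [Polynomial.mem_roots hf, Polynomial.IsRoot] at hα ⊢
  rw [← hg]
  have := Polynomial.eval_map_apply (f := (g : N →+* N)) (p := f) α
  rw [hα, map_zero] at this
  exact this

/-- **Transfer of roots, equivariant form.** -/
theorem transfer_equiv {f k : N[X]} {δ : Γ₀} (hδ : 0 < δ) (hf : f.Monic) (hk : k.Monic)
    (hdeg : k.natDegree = f.natDegree) (hfs : f.Splits) (hks : k.Splits)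
    (hnd : f.roots.Nodup) (hint : ∀ α ∈ f.roots, v α ≤ 1)
    (hsep : ∀ α ∈ f.roots, ∀ β ∈ f.roots, α ≠ β → δ ≤ v (α - β))
    (hd : ∀ i, v ((k - f).coeff i) < δ ^ k.natDegree) :
    k.roots.Nodup ∧ ∃ e : {x // x ∈ f.roots} ≃ {x // x ∈ k.roots},
      ∀ g : N ≃+* N, (∀ x, v (g x) = v x) → f.map (g : N →+* N) = f → k.map (g : N →+* N) = k →
        ∀ (α : {x // x ∈ f.roots}) (h : g α ∈ f.roots), (e ⟨g α, h⟩ : N) = g (e α) := by
  obtain ⟨h1, e, he⟩ := transfer v hδ hf hk hdeg hfs hks hnd hint hsep hd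
  refine ⟨h1, e, fun g hg hfg hkg α h => ?_⟩
  have h2 : g (e α) ∈ k.roots := map_mem_roots hk.ne_zero g hkg (e α).2
  have h3 := close_unique v hsep e he ⟨g α, h⟩ ⟨g (e α), h2⟩ (by
    show v (g α - g (e α)) < δ
    rw [← map_sub, hg]
    exact he α)
  rw [← h3]

end Val

end StarkRT
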